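import Mathlib

/-!
For every abelian group `A`: if the endomorphism ring `R` of `A` is right distributive and centrally
essential, then it is commutative.

Outline. Suppose `c = f g - g f` is not zero.
* Central essentiality gives a nonzero central `w = c z` with `w ^ 2 = 0`
  (`exists_central_sq_zero`).
* A central square-zero endomorphism `w` kills every divisible subgroup `D`: `w D` is divisible, so
  it is a retract, and `w d = ρ (w d) = w (ρ d) ∈ w (w D) = 0`. Hence also `w A ∩ D = 0`.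
* For a prime `p` with `A ≠ p A` and `A[p] ≠ 0`, distributivity makes `A[p]` cyclic, so the
  `p`-primary part of `A` is cyclic or quasicyclic and a direct summand; let `ψ p` be the
  projection. Then `c`, hence `w`, kills it, and `ψ p * w = w * ψ p = 0` (`exists_psi`).
* Distributivity for the pair `w, n` gives `w ∈ n R` for all `n ≥ 1`, and with the projections
  `ψ p` one builds a divisible subgroup of `A` containing `w A` (`ring_part`). So `w = 0`.
-/

set_option autoImplicit false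

namespace Pool.Agent.Results.MP_10193a_al.EndDistributive

universe u

/-- `R` is right distributive: the lattice of right ideals of `R` (the `Rᵐᵒᵖ`-submodules of `R`)
is distributive. -/
def IsRightDistributive (R : Type u) [Ring R] : Prop :=
  ∀ I J K : Submodule Rᵐᵒᵖ R, I ⊓ (J ⊔ K) = (I ⊓ J) ⊔ (I ⊓ K)

/-- `R` is centrally essential: for every nonzero `a` there are nonzero central `x`, `y` with
`a * x = y`. -/
def IsCentrallyEssential (R : Type u) [Ring R] : Prop :=
  ∀ a : R, a ≠ 0 → ∃ x ∈ Subring.center R, ∃ y ∈ Subring.center R, x ≠ 0 ∧ y ≠ 0 ∧ a * x = y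

/-- element form of right distributivity -/
theorem distrib_elem {R : Type u} [Ring R] (h : IsRightDistributive R) (m n : R) :
    ∃ x y : R, x + y = 1 ∧ (∃ r, m * x = n * r) ∧ (∃ s, n * y = m * s) := by
  have mem : ∀ a b : R, b ∈ Submodule.span Rᵐᵒᵖ {a} ↔ ∃ r : R, a * r = b := by
    intro a b
    rw [Submodule.mem_span_singleton]
    constructor
    · rintro ⟨r, rfl⟩
      exact ⟨r.unop, rfl⟩
    · rintro ⟨r, rfl⟩
      exact ⟨MulOpposite.op r, rfl⟩
  have h1 := h (Submodule.span Rᵐᵒᵖ {m + n}) (Submodule.span Rᵐᵒᵖ {m}) (Submodule.span Rᵐᵒᵖ {n})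
  have h2 : m + n ∈ Submodule.span Rᵐᵒᵖ {m + n} ⊓ (Submodule.span Rᵐᵒᵖ {m} ⊔ Submodule.span Rᵐᵒᵖ {n}) :=
    ⟨Submodule.mem_span_singleton_self _, Submodule.add_mem_sup (Submodule.mem_span_singleton_self _)
      (Submodule.mem_span_singleton_self _)⟩
  rw [h1, Submodule.mem_sup] at h2
  obtain ⟨u, ⟨hu1, hu2⟩, v, ⟨hv1, hv2⟩, huv⟩ := h2
  obtain ⟨x', hx'⟩ := (mem _ _).1 hu1
  obtain ⟨a, ha⟩ := (mem _ _).1 hu2
  obtain ⟨b, hb⟩ := (mem _ _).1 hv2
  refine ⟨1 - x', x', by abel, ⟨b - (1 - x'), ?_⟩, ⟨a - x', ?_⟩⟩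
  · have h3 : (m + n) * (1 - x') = n * b := by
      rw [mul_sub, mul_one, hx', hb, ← huv]; abel
    have h4 : m * (1 - x') + n * (1 - x') = n * b := by rw [← add_mul, h3]
    rw [mul_sub n, ← h4]; abel
  · rw [mul_sub, ha, ← hx']; noncomm_ring

/-- a noncommutative centrally essential ring has a nonzero central square-zero multiple of any
nonzero commutator -/
theorem exists_central_sq_zero {R : Type u} [Ring R] (h : IsCentrallyEssential R) (f g : R)
    (hfg : f * g - g * f ≠ 0) :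
    ∃ w z : R, w ≠ 0 ∧ (∀ r, w * r = r * w) ∧ (∀ r, z * r = r * z) ∧ w * w = 0 ∧
      w = (f * g - g * f) * z := by
  obtain ⟨z, hz, y, hy, hz0, hy0, hzy⟩ := h _ hfg
  have hz' : ∀ r, z * r = r * z := fun r => ((Subring.mem_center_iff.1 hz) r).symm
  have hy' : ∀ r, y * r = r * y := fun r => ((Subring.mem_center_iff.1 hy) r).symm
  by_cases hfy : f * y = 0
  · refine ⟨y, z, hy0, hy', hz', ?_, hzy.symm⟩
    have h1 : y * (f * g - g * f) = 0 := by
      rw [mul_sub, ← mul_assoc, hy' f, hfy, zero_mul, zero_sub, neg_eq_zero, ← mul_assoc, hy' g,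
        mul_assoc, hy' f, hfy, mul_zero]
    calc y * y = y * ((f * g - g * f) * z) := by rw [hzy]
      _ = y * (f * g - g * f) * z := by rw [mul_assoc]
      _ = 0 := by rw [h1, zero_mul]
  · obtain ⟨x, hx, t, ht, hx0, ht0, hxt⟩ := h _ hfy
    have hx' : ∀ r, x * r = r * x := fun r => ((Subring.mem_center_iff.1 hx) r).symm
    have ht' : ∀ r, t * r = r * t := fun r => ((Subring.mem_center_iff.1 ht) r).symm
    have hyx : ∀ r, (y * x) * r = r * (y * x) := by
      intro r; rw [mul_assoc, hx', ← mul_assoc, hy', mul_assoc]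
    have hfyx : f * (y * x) = t := by rw [← mul_assoc, hxt]
    have h1 : (y * x) * (f * g - g * f) = 0 := by
      rw [mul_sub, ← mul_assoc, hyx f, hfyx, ← mul_assoc, hyx g, mul_assoc, hyx f, hfyx, ht' g,
        sub_self]
    refine ⟨y * x, z * x, ?_, hyx, ?_, ?_, ?_⟩
    · intro h0
      rw [h0, mul_zero] at hfyx
      exact ht0 hfyx.symm
    · intro r; rw [mul_assoc, hx', ← mul_assoc, hz', mul_assoc]
    · calc (y * x) * (y * x) = (y * x) * ((f * g - g * f) * z * x) := by rw [hzy]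
        _ = (y * x) * (f * g - g * f) * (z * x) := by simp only [mul_assoc]
        _ = 0 := by rw [h1, zero_mul]
    · rw [← hzy, mul_assoc]

section groups

variable {A : Type u} [AddCommGroup A]

/-- retraction onto a divisible subgroup -/
theorem exists_retraction (D : AddSubgroup A)
    (hD : ∀ n : ℕ, n ≠ 0 → ∀ d ∈ D, ∃ d' ∈ D, n • d' = d) :
    ∃ ρ : AddMonoid.End A, (∀ a, ρ a ∈ D) ∧ ∀ d ∈ D, ρ d = d := by
  classical
  have hsurj : ∀ {n : ℤ}, n ≠ 0 → Function.Surjective (fun a : D => n • a) := by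
    intro n hn d
    obtain ⟨d', hd', hdd⟩ := hD n.natAbs (Int.natAbs_ne_zero.2 hn) d.1 d.2
    rcases Int.natAbs_eq n with h | h
    · refine ⟨⟨d', hd'⟩, Subtype.ext ?_⟩
      change n • d' = d.1
      rw [h, natCast_zsmul, hdd]
    · refine ⟨⟨-d', D.neg_mem hd'⟩, Subtype.ext ?_⟩
      change n • (-d') = d.1
      rw [h, neg_smul, smul_neg, neg_neg, natCast_zsmul, hdd]
  let _ : DivisibleBy D ℤ := divisibleByOfSMulRightSurj D ℤ hsurj
  obtain ⟨φ, hφ⟩ := (Module.Baer.of_divisible D).extension_property_addMonoidHom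
    D.subtype D.subtype_injective (AddMonoidHom.id D)
  refine ⟨D.subtype.comp φ, fun a => (φ a).2, fun d hd => ?_⟩
  have := DFunLike.congr_fun hφ ⟨d, hd⟩
  change (φ d).1 = d
  have h2 : φ d = ⟨d, hd⟩ := this
  rw [h2]

/-- a central square-zero endomorphism kills every divisible subgroup -/
theorem central_kills_divisible (w : AddMonoid.End A) (hw : ∀ r, w * r = r * w) (hw2 : w * w = 0)
    (D : AddSubgroup A) (hD : ∀ n : ℕ, n ≠ 0 → ∀ d ∈ D, ∃ d' ∈ D, n • d' = d) :
    ∀ d ∈ D, w d = 0 := by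
  have hI : ∀ n : ℕ, n ≠ 0 → ∀ d ∈ D.map w, ∃ d' ∈ D.map w, n • d' = d := by
    rintro n hn _ ⟨d, hd, rfl⟩
    obtain ⟨d', hd', rfl⟩ := hD n hn d hd
    exact ⟨w d', ⟨d', hd', rfl⟩, (map_nsmul w n d').symm⟩
  obtain ⟨ρ, hρ, hρ'⟩ := exists_retraction (D.map w) hI
  intro d hd
  have h1 : ρ (w d) = w d := hρ' _ ⟨d, hd, rfl⟩
  have h2 : w (ρ d) = ρ (w d) := DFunLike.congr_fun (hw ρ) d
  obtain ⟨e, he, hee⟩ := hρ d
  have h3 : w (ρ d) = 0 := by
    rw [← hee]
    exact DFunLike.congr_fun hw2 e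
  rw [← h1, ← h2, h3]

theorem central_disjoint_divisible (w : AddMonoid.End A) (hw : ∀ r, w * r = r * w)
    (hw2 : w * w = 0)
    (D : AddSubgroup A) (hD : ∀ n : ℕ, n ≠ 0 → ∀ d ∈ D, ∃ d' ∈ D, n • d' = d) (a : A)
    (ha : w a ∈ D) : w a = 0 := by
  obtain ⟨ρ, hρ, hρ'⟩ := exists_retraction D hD
  rw [← hρ' _ ha]
  have h2 : w (ρ a) = ρ (w a) := DFunLike.congr_fun (hw ρ) a
  rw [← h2]
  exact central_kills_divisible w hw hw2 D hD _ (hρ a)

/-- a cyclic subgroup of maximal order modulo `N` is the target of a map to `ZMod N`. -/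
theorem exists_zmod_hom (N : ℕ) (hN : N ≠ 0) (t : A)
    (ht : ∀ (j : ℤ) (b : A), j • t = N • b → (N : ℤ) ∣ j) :
    ∃ χ : A →+ ZMod N, χ t = 1 := by
  have : NeZero N := ⟨hN⟩
  let P : AddSubgroup A := (nsmulAddMonoidHom (α := A) N).range
  let B := A ⧸ P
  let tb : B := QuotientAddGroup.mk t
  have hNB : ∀ b : B, N • b = 0 := by
    intro b
    obtain ⟨a, rfl⟩ := QuotientAddGroup.mk_surjective b
    rw [← QuotientAddGroup.mk_nsmul, QuotientAddGroup.eq_zero_iff]
    exact ⟨a, rfl⟩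
  let ι : ZMod N →+ B := ZMod.lift N ⟨zmultiplesHom B tb, by
    rw [zmultiplesHom_apply, natCast_zsmul]; exact hNB _⟩
  have hι : Function.Injective ι := by
    rw [injective_iff_map_eq_zero]
    intro x hx
    obtain ⟨j, rfl⟩ := ZMod.intCast_surjective x
    rw [ZMod.lift_coe] at hx
    change (j : ℤ) • tb = 0 at hx
    rw [← QuotientAddGroup.mk_zsmul, QuotientAddGroup.eq_zero_iff] at hx
    obtain ⟨b, hb⟩ := hx
    exact (ZMod.intCast_zmod_eq_zero_iff_dvd j N).2 (ht j b hb.symm)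
  let q : AddCircle (1 : ℚ) := (((N : ℚ)⁻¹ : ℚ) : AddCircle (1 : ℚ))
  have hNQ : (N : ℚ) ≠ 0 := Nat.cast_ne_zero.2 hN
  let κ : ZMod N →+ AddCircle (1 : ℚ) := ZMod.lift N ⟨zmultiplesHom _ q, by
    rw [zmultiplesHom_apply, natCast_zsmul]
    change N • (((N : ℚ)⁻¹ : ℚ) : AddCircle (1 : ℚ)) = 0
    rw [← AddCircle.coe_nsmul, AddCircle.coe_eq_zero_iff]
    exact ⟨1, by simp [hNQ]⟩⟩
  have hκ : Function.Injective κ := by
    rw [injective_iff_map_eq_zero]
    intro x hx
    obtain ⟨j, rfl⟩ := ZMod.intCast_surjective x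
    rw [ZMod.lift_coe] at hx
    change (j : ℤ) • (((N : ℚ)⁻¹ : ℚ) : AddCircle (1 : ℚ)) = 0 at hx
    rw [← AddCircle.coe_zsmul, AddCircle.coe_eq_zero_iff] at hx
    obtain ⟨m, hm⟩ := hx
    rw [ZMod.intCast_zmod_eq_zero_iff_dvd]
    refine ⟨m, ?_⟩
    have h1 : (j : ℚ) = (N : ℚ) * m := by
      field_simp at hm
      simp at hm
      field_simp at hm
      linarith
    exact_mod_cast h1
  obtain ⟨h, hh⟩ := (Module.Baer.of_divisible (AddCircle (1 : ℚ))).extension_property_addMonoidHom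
    ι hι κ
  have hrange : ∀ b : B, h b ∈ κ.range := by
    intro b
    have h1 : N • h b = 0 := by rw [← map_nsmul, hNB, map_zero]
    obtain ⟨r, hr⟩ := QuotientAddGroup.mk_surjective (h b)
    change ((r : ℚ) : AddCircle (1 : ℚ)) = h b at hr
    rw [← hr, ← AddCircle.coe_nsmul, AddCircle.coe_eq_zero_iff] at h1
    obtain ⟨m, hm⟩ := h1
    refine ⟨(m : ZMod N), ?_⟩
    rw [← hr, ZMod.lift_coe]
    change (m : ℤ) • (((N : ℚ)⁻¹ : ℚ) : AddCircle (1 : ℚ)) = _
    rw [← AddCircle.coe_zsmul]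
    congr 1
    have h2 : (N : ℚ) * r = m := by simpa using hm.symm
    rw [zsmul_eq_mul, ← h2]
    field_simp
  let e := AddMonoidHom.ofInjective hκ
  let χB : B →+ ZMod N := e.symm.toAddMonoidHom.comp (h.codRestrict κ.range hrange)
  refine ⟨χB.comp (QuotientAddGroup.mk' P), ?_⟩
  change e.symm (h.codRestrict κ.range hrange tb) = 1
  rw [AddEquiv.symm_apply_eq]
  apply Subtype.ext
  change h tb = κ 1
  have h3 : ι 1 = tb := by
    have : (1 : ZMod N) = ((1 : ℤ) : ZMod N) := by simp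
    rw [this, ZMod.lift_coe]
    change (1 : ℤ) • tb = tb
    rw [one_smul]
  rw [← h3]
  exact DFunLike.congr_fun hh 1

/-- the endomorphism `x ↦ χ(x) • t`, where `χ : A → ZMod N` and `N • t = 0`. -/
theorem exists_rank_one (N : ℕ) (χ : A →+ ZMod N) (t : A) (ht : N • t = 0) :
    ∃ θ : AddMonoid.End A, (∀ (x : A) (j : ℤ), χ x = (j : ZMod N) → θ x = j • t) := by
  let κ : ZMod N →+ A := ZMod.lift N ⟨zmultiplesHom _ t, by
    rw [zmultiplesHom_apply, natCast_zsmul]; exact ht⟩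
  refine ⟨κ.comp χ, fun x j hj => ?_⟩
  change κ (χ x) = _
  rw [hj, ZMod.lift_coe]
  rfl

/-- Bezout: divisibility by `p ^ k` of a multiple -/
theorem mem_of_coprime (M : ℕ) (u : ℤ) (hu : IsCoprime u (M : ℤ)) (P : AddSubgroup A) (a : A)
    (h1 : u • a ∈ P) (h2 : M • a ∈ P) : a ∈ P := by
  obtain ⟨r, s, hrs⟩ := hu
  have : a = r • (u • a) + s • ((M : ℤ) • a) := by
    rw [← mul_smul, ← mul_smul, ← add_smul, hrs, one_smul]
  rw [this]
  refine P.add_mem (P.zsmul_mem h1 r) (P.zsmul_mem ?_ s)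
  rw [natCast_zsmul]; exact h2

theorem coprime_of_not_dvd {p : ℕ} (hp : p.Prime) {u : ℤ} (h : ¬ (p : ℤ) ∣ u) (k : ℕ) :
    IsCoprime u ((p ^ k : ℕ) : ℤ) := by
  have h1 : IsCoprime u (p : ℤ) :=
    ((Nat.prime_iff_prime_int.1 hp).coprime_iff_not_dvd.2 h).symm
  rw [Nat.cast_pow]
  exact h1.pow_right

/-- if `A ≠ pA` then, under distributivity, `A[p]` is cyclic -/
theorem socle_cyclic (h : IsRightDistributive (AddMonoid.End A)) {p : ℕ} (hp : p.Prime)
    (x0 : A) (hx0 : ∀ b : A, p • b ≠ x0) (a a' : A) (ha : p • a = 0) (ha0 : a ≠ 0)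
    (ha' : p • a' = 0) : ∃ j : ℤ, a' = j • a := by
  have hχ : ∃ χ : A →+ ZMod p, χ x0 = 1 := by
    refine exists_zmod_hom p hp.ne_zero x0 (fun j b hjb => ?_)
    by_contra hj
    have := mem_of_coprime p j (by simpa using coprime_of_not_dvd hp hj 1)
      (nsmulAddMonoidHom (α := A) p).range x0 ⟨b, hjb.symm⟩ ⟨x0, rfl⟩
    obtain ⟨c, hc⟩ := this
    exact hx0 c hc
  obtain ⟨χ, hχ⟩ := hχ
  obtain ⟨θ, hθ⟩ := exists_rank_one p χ a ha
  obtain ⟨θ', hθ'⟩ := exists_rank_one p χ a' ha'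
  obtain ⟨x, y, hxy, ⟨r, hr⟩, ⟨s, hs⟩⟩ := distrib_elem h θ θ'
  obtain ⟨jx, hjx⟩ := ZMod.intCast_surjective (χ (x x0))
  obtain ⟨jy, hjy⟩ := ZMod.intCast_surjective (χ (y x0))
  obtain ⟨jr, hjr⟩ := ZMod.intCast_surjective (χ (r x0))
  obtain ⟨js, hjs⟩ := ZMod.intCast_surjective (χ (s x0))
  have e1 : jx • a = jr • a' := by
    rw [← hθ _ _ hjx.symm, ← hθ' _ _ hjr.symm]
    exact DFunLike.congr_fun hr x0
  have e2 : jy • a' = js • a := by
    rw [← hθ _ _ hjs.symm, ← hθ' _ _ hjy.symm]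
    exact DFunLike.congr_fun hs x0
  have hsum : (jx : ZMod p) + jy = 1 := by
    rw [hjx, hjy, ← map_add]
    have : x x0 + y x0 = x0 := DFunLike.congr_fun hxy x0
    rw [this, hχ]
  have key : ∀ (b b' : A) (j k : ℤ), p • b = 0 → ¬ (p : ℤ) ∣ j → j • b = k • b' →
      b ∈ AddSubgroup.zmultiples b' := by
    intro b b' j k hb hj hjk
    refine mem_of_coprime p j (by simpa using coprime_of_not_dvd hp hj 1) _ b ?_ ?_
    · rw [hjk]; exact AddSubgroup.zsmul_mem_zmultiples b' k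
    · rw [hb]; exact AddSubgroup.zero_mem _
  by_cases hy : (p : ℤ) ∣ jy
  · have hx : ¬ (p : ℤ) ∣ jx := by
      intro hx
      rw [(ZMod.intCast_zmod_eq_zero_iff_dvd _ _).2 hx, (ZMod.intCast_zmod_eq_zero_iff_dvd _ _).2 hy,
        add_zero] at hsum
      have := Fact.mk hp
      exact zero_ne_one hsum
    have hjr' : ¬ (p : ℤ) ∣ jr := by
      rintro ⟨c, hc⟩
      rw [hc, mul_comm, mul_smul, natCast_zsmul, ha', smul_zero] at e1
      have h0 : a ∈ (⊥ : AddSubgroup A) :=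
        mem_of_coprime p jx (by simpa using coprime_of_not_dvd hp hx 1) ⊥ a
          (by rw [e1]; exact AddSubgroup.zero_mem _) (by rw [ha]; exact AddSubgroup.zero_mem _)
      exact ha0 h0
    obtain ⟨j, hj⟩ := AddSubgroup.mem_zmultiples_iff.1 (key a' a jr jx ha' hjr' e1.symm)
    exact ⟨j, hj.symm⟩
  · obtain ⟨j, hj⟩ := AddSubgroup.mem_zmultiples_iff.1 (key a' a jy js ha' hy e2)
    exact ⟨j, hj.symm⟩

/-- if `A[p]` is generated by `a0 = p ^ k t`, then `A[p ^ (k+1)]` is generated by `t` -/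
theorem torsion_cyclic {p : ℕ} (a0 : A) (hcyc : ∀ a' : A, p • a' = 0 → ∃ j : ℤ, a' = j • a0)
    (k : ℕ) (t : A) (ht : p ^ k • t = a0) :
    ∀ (i : ℕ), i ≤ k + 1 → ∀ s : A, p ^ i • s = 0 → ∃ j : ℤ, s = j • t := by
  intro i
  induction i with
  | zero => intro _ s hs; exact ⟨0, by simpa using hs⟩
  | succ i ih =>
    intro hi s hs
    obtain ⟨j, hj⟩ := hcyc (p ^ i • s) (by rw [← mul_smul, ← pow_succ']; exact hs)
    have hk : p ^ k = p ^ i * p ^ (k - i) := by rw [← pow_add]; congr 1; omega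
    obtain ⟨j', hj'⟩ := ih (by omega) (s - j • (p ^ (k - i) • t)) (by
      rw [smul_sub, hj, ← ht, smul_comm (p ^ i) j, ← mul_smul (p ^ i), ← hk, sub_self])
    refine ⟨j' + j * (p ^ (k - i) : ℕ), ?_⟩
    rw [add_smul, ← hj', mul_smul, natCast_zsmul]
    abel

/-- the projection associated with the prime `p` -/
theorem exists_psi (h : IsRightDistributive (AddMonoid.End A)) (f g w z : AddMonoid.End A)
    (hw : ∀ r, w * r = r * w) (hz : ∀ r, z * r = r * z) (hw2 : w * w = 0)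
    (hwc : w = (f * g - g * f) * z) {p : ℕ} (hp : p.Prime) :
    ∃ ψ : AddMonoid.End A, ψ * ψ = ψ ∧ (∀ θ : AddMonoid.End A, (∀ a, p • θ a = 0) → ψ * θ = θ) ∧
      ψ * w = 0 ∧ ∀ a, ∃ k : ℕ, p ^ k • ψ a = 0 := by
  classical
  by_cases hR : ∀ θ : AddMonoid.End A, (∀ a, p • θ a = 0) → θ = 0
  · exact ⟨0, by simp, fun θ hθ => by rw [hR θ hθ, mul_zero], by simp, fun a => ⟨0, by simp⟩⟩
  push Not at hR
  obtain ⟨θ0, hθ0, hθ0'⟩ := hR
  obtain ⟨b0, hb0⟩ : ∃ b0, θ0 b0 ≠ 0 := by
    by_contra hcon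
    push Not at hcon
    exact hθ0' (AddMonoidHom.ext hcon)
  set a0 := θ0 b0 with ha0
  have hpa0 : p • a0 = 0 := hθ0 b0
  have hb0' : ∀ b : A, p • b ≠ b0 := by
    intro b hb
    apply hb0
    rw [ha0, ← hb, map_nsmul]
    exact hθ0 b
  have hcyc : ∀ a' : A, p • a' = 0 → ∃ j : ℤ, a' = j • a0 := fun a' ha' =>
    socle_cyclic h hp b0 hb0' a0 a' hpa0 hb0 ha'
  by_cases hI : ∀ k : ℕ, ∃ t, p ^ k • t = a0
  · -- divisible p-primary part
    let T : AddSubgroup A :=
      { carrier := {s | ∃ k : ℕ, p ^ k • s = 0}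
        zero_mem' := ⟨0, by simp⟩
        add_mem' := by
          rintro a b ⟨k, hk⟩ ⟨l, hl⟩
          refine ⟨k + l, ?_⟩
          rw [smul_add, pow_add, mul_comm, mul_smul, hk, smul_zero, mul_comm, mul_smul, hl,
            smul_zero, add_zero]
        neg_mem' := by
          rintro a ⟨k, hk⟩
          exact ⟨k, by rw [smul_neg, hk, neg_zero]⟩ }
    have hTp : ∀ d ∈ T, ∃ d' ∈ T, p • d' = d := by
      rintro s ⟨k, hk⟩
      obtain ⟨t, ht⟩ := hI k
      obtain ⟨j, hj⟩ := torsion_cyclic a0 hcyc k t ht k (by omega) s hk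
      have hdvd : (p : ℤ) ∣ j := by
        by_contra hnd
        have h1 : j • a0 = 0 := by
          rw [← ht, smul_comm, ← hj, hk]
        exact hb0 (mem_of_coprime p j (by simpa using coprime_of_not_dvd hp hnd 1) ⊥ a0
          (by rw [h1]; exact AddSubgroup.zero_mem _) (by rw [hpa0]; exact AddSubgroup.zero_mem _))
      obtain ⟨i, rfl⟩ := hdvd
      refine ⟨i • t, ⟨k + 1, ?_⟩, ?_⟩
      · rw [smul_comm, pow_succ', mul_smul, ht, hpa0, smul_zero]
      · rw [hj, mul_smul, natCast_zsmul]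
    have hTq : ∀ n : ℕ, ¬ p ∣ n → ∀ d ∈ T, ∃ d' ∈ T, n • d' = d := by
      rintro n hn s ⟨k, hk⟩
      have hcop : IsCoprime (n : ℤ) ((p ^ k : ℕ) : ℤ) :=
        coprime_of_not_dvd hp (fun hh => hn (by exact_mod_cast hh)) k
      obtain ⟨r, q, hrq⟩ := hcop
      refine ⟨r • s, ⟨k, by rw [smul_comm, hk, smul_zero]⟩, ?_⟩
      have : s = (r * n + q * ((p ^ k : ℕ) : ℤ)) • s := by rw [hrq, one_smul]
      conv_rhs => rw [this, add_smul, mul_smul q, natCast_zsmul, hk, smul_zero, add_zero, mul_comm, mul_smul,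
        natCast_zsmul]
    have hT : ∀ n : ℕ, n ≠ 0 → ∀ d ∈ T, ∃ d' ∈ T, n • d' = d := by
      intro n
      induction n using Nat.strong_induction_on with
      | _ n ih =>
        intro hn d hd
        by_cases hpn : p ∣ n
        · obtain ⟨m, rfl⟩ := hpn
          have hm : m ≠ 0 := by rintro rfl; exact hn (mul_zero _)
          obtain ⟨d1, hd1, rfl⟩ := hTp d hd
          obtain ⟨d2, hd2, rfl⟩ := ih m (by
            have := hp.two_le
            nlinarith [Nat.pos_of_ne_zero hm]) hm d1 hd1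
          exact ⟨d2, hd2, by rw [mul_smul]⟩
        · exact hTq n hpn d hd
    obtain ⟨ρ, hρ, hρ'⟩ := exists_retraction T hT
    refine ⟨ρ, ?_, ?_, ?_, hρ⟩
    · ext a; exact hρ' _ (hρ a)
    · intro θ hθ
      ext a
      refine hρ' _ ⟨1, ?_⟩
      rw [pow_one]
      exact hθ a
    · rw [← hw]
      ext a
      exact central_kills_divisible w hw hw2 T hT _ (hρ a)
  · -- bounded p-primary part
    push Not at hI
    have hex : ∃ k : ℕ, (∃ t, p ^ k • t = a0) ∧ ∀ t, p ^ (k + 1) • t ≠ a0 := by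
      by_contra hcon
      push Not at hcon
      obtain ⟨k, hk⟩ := hI
      have : ∀ k : ℕ, ∃ t, p ^ k • t = a0 := by
        intro k
        induction k with
        | zero => exact ⟨a0, by simp⟩
        | succ k ih => exact hcon k ih
      obtain ⟨t, ht⟩ := this k
      exact hk t ht
    obtain ⟨k, ⟨t, ht⟩, hk⟩ := hex
    have hpt : p ^ (k + 1) • t = 0 := by rw [pow_succ', mul_smul, ht, hpa0]
    have hgen : ∀ s : A, p ^ (k + 1) • s = 0 → ∃ j : ℤ, s = j • t :=
      torsion_cyclic a0 hcyc k t ht (k + 1) le_rfl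
    have hχ : ∃ χ : A →+ ZMod (p ^ (k + 1)), χ t = 1 := by
      refine exists_zmod_hom _ (pow_ne_zero _ hp.ne_zero) t (fun j b hjb => ?_)
      by_contra hj
      have hj0 : j ≠ 0 := by rintro rfl; exact hj (dvd_zero _)
      obtain ⟨i, u, hu, hju⟩ : ∃ (i : ℕ) (u : ℤ), ¬ (p : ℤ) ∣ u ∧ j = p ^ i * u := by
        have hfin : FiniteMultiplicity (p : ℤ) j :=
          Int.finiteMultiplicity_iff.2 ⟨by simpa using hp.ne_one, hj0⟩
        obtain ⟨u, hu, hnu⟩ := hfin.exists_eq_pow_mul_and_not_dvd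
        exact ⟨_, u, hnu, hu⟩
      have hik : i ≤ k := by
        by_contra hik
        apply hj
        rw [hju]
        push_cast
        exact Dvd.dvd.mul_right (pow_dvd_pow _ (by omega)) _
      have h1 : u • a0 ∈ (nsmulAddMonoidHom (α := A) (p ^ (k + 1))).range := by
        refine ⟨p ^ (k - i) • b, ?_⟩
        change p ^ (k + 1) • (p ^ (k - i) • b) = u • a0
        rw [smul_comm, ← hjb, hju, mul_smul, ← ht]
        have : ((p : ℤ) ^ i) = ((p ^ i : ℕ) : ℤ) := by push_cast; rfl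
        rw [this, natCast_zsmul, ← mul_smul, ← pow_add, show k - i + i = k by omega, smul_comm]
      have h2 : a0 ∈ (nsmulAddMonoidHom (α := A) (p ^ (k + 1))).range :=
        mem_of_coprime p u (by simpa using coprime_of_not_dvd hp hu 1) _ a0 h1
          (by rw [hpa0]; exact AddSubgroup.zero_mem _)
      obtain ⟨c, hc⟩ := h2
      exact hk c hc
    obtain ⟨χ, hχ⟩ := hχ
    obtain ⟨ψ, hψ⟩ := exists_rank_one (p ^ (k + 1)) χ t hpt
    have hψt : ψ t = t := by
      rw [hψ t 1 (by rw [hχ]; simp), one_smul]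
    have himg : ∀ a, ∃ j : ℤ, ψ a = j • t := by
      intro a
      obtain ⟨j, hj⟩ := ZMod.intCast_surjective (χ a)
      exact ⟨j, hψ a j hj.symm⟩
    have hfix : ∀ j : ℤ, ψ (j • t) = j • t := fun j => by rw [map_zsmul, hψt]
    refine ⟨ψ, ?_, ?_, ?_, ?_⟩
    · ext a
      obtain ⟨j, hj⟩ := himg a
      change ψ (ψ a) = ψ a
      rw [hj, hfix]
    · intro θ hθ
      ext a
      have h1 : p • θ a = 0 := hθ a
      obtain ⟨j, hj⟩ := hcyc _ h1
      change ψ (θ a) = θ a
      rw [hj, ← ht, ← natCast_zsmul, ← mul_smul, hfix]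
    · rw [← hw]
      have hft : ∀ r : AddMonoid.End A, ∃ j : ℤ, r t = j • t := by
        intro r
        refine hgen _ ?_
        rw [← map_nsmul, hpt, map_zero]
      obtain ⟨jf, hjf⟩ := hft f
      obtain ⟨jg, hjg⟩ := hft g
      have hct : (f * g - g * f) t = 0 := by
        change f (g t) - g (f t) = 0
        rw [hjf, hjg, map_zsmul, map_zsmul, hjf, hjg, ← mul_smul, ← mul_smul, mul_comm, sub_self]
      have hwt : w t = 0 := by
        rw [hwc, ← hz]
        change z ((f * g - g * f) t) = 0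
        rw [hct, map_zero]
      ext a
      obtain ⟨j, hj⟩ := himg a
      change w (ψ a) = 0
      rw [hj, map_zsmul, hwt, smul_zero]
    · intro a
      obtain ⟨j, hj⟩ := himg a
      exact ⟨k + 1, by rw [hj, smul_comm, hpt, smul_zero]⟩

end groups

/-- the ring-theoretic part: a set of elements containing `w` and closed under division by
primes -/
theorem ring_part {R : Type u} [Ring R] (hdist : IsRightDistributive R) (w : R)
    (hw : ∀ r, w * r = r * w) (hw2 : w * w = 0) (ψ : ℕ → R)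
    (hψψ : ∀ p : ℕ, p.Prime → ψ p * ψ p = ψ p)
    (hψθ : ∀ p : ℕ, p.Prime → ∀ θ : R, p • θ = 0 → ψ p * θ = θ)
    (hψw : ∀ p : ℕ, p.Prime → ψ p * w = 0)
    (hψq : ∀ p q : ℕ, p.Prime → q.Prime → q ≠ p → ∀ θ : R, p • θ = 0 → ψ q * θ = 0) :
    ∃ S : Set R, w ∈ S ∧ ∀ s ∈ S, ∀ p : ℕ, p.Prime → ∃ s' ∈ S, p • s' = s := by
  -- `w R` is torsion-free
  have htf : ∀ n : ℕ, n ≠ 0 → ∀ r : R, n • (w * r) = 0 → w * r = 0 := by
    intro n
    induction n using Nat.strong_induction_on with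
    | _ n ih =>
      intro hn r hr
      by_cases h1 : n = 1
      · simpa [h1] using hr
      · obtain ⟨p, hp, m, rfl⟩ := Nat.exists_prime_and_dvd h1
        have hm : m ≠ 0 := by rintro rfl; exact hn (mul_zero _)
        refine ih m (by
            have := hp.two_le
            nlinarith [Nat.pos_of_ne_zero hm]) hm r ?_
        rw [mul_smul] at hr
        have h2 := hψθ p hp _ hr
        rw [← h2, mul_smul_comm, ← mul_assoc, hψw p hp, zero_mul, smul_zero]
  have hwdiv : ∀ n : ℕ, n ≠ 0 → ∃ b : R, w = n • b := by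
    intro n hn
    obtain ⟨x, y, hxy, ⟨r, hr⟩, ⟨s, hs⟩⟩ := distrib_elem hdist w (n : R)
    refine ⟨r, ?_⟩
    have h1 : n • (w * y) = 0 := by
      rw [nsmul_eq_mul, ← mul_assoc, ← hw, mul_assoc, hs, ← mul_assoc, hw2, zero_mul]
    have h2 := htf n hn y h1
    calc w = w * (x + y) := by rw [hxy, mul_one]
      _ = n • r := by rw [mul_add, h2, add_zero, hr, nsmul_eq_mul]
  refine ⟨{s | (∀ n : ℕ, n ≠ 0 → ∃ b, s = n • b) ∧ ∀ p : ℕ, p.Prime → ψ p * s = 0},
    ⟨hwdiv, hψw⟩, ?_⟩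
  rintro s ⟨hs1, hs2⟩ p hp
  obtain ⟨b, hb⟩ := hs1 p hp.ne_zero
  have hpb' : p • (b - ψ p * b) = s := by
    rw [smul_sub, ← mul_smul_comm, ← hb, hs2 p hp, sub_zero]
  have hψb' : ψ p * (b - ψ p * b) = 0 := by
    rw [mul_sub, ← mul_assoc, hψψ p hp, sub_self]
  refine ⟨b - ψ p * b, ⟨?_, ?_⟩, hpb'⟩
  · intro n hn
    obtain ⟨c, hc⟩ := hs1 (p * n) (mul_ne_zero hp.ne_zero hn)
    have h1 : p • ((b - ψ p * b) - n • c) = 0 := by
      rw [smul_sub, hpb', ← mul_smul, ← hc, sub_self]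
    have h2 := hψθ p hp _ h1
    rw [mul_sub, hψb', zero_sub] at h2
    refine ⟨c - ψ p * c, ?_⟩
    rw [smul_sub, ← mul_smul_comm, sub_eq_add_neg (n • c), h2]
    abel
  · intro q hq
    by_cases hqp : q = p
    · rw [hqp]; exact hψb'
    · have h1 : p • (ψ q * (b - ψ p * b)) = 0 := by
        rw [← mul_smul_comm, hpb', hs2 q hq]
      have h2 := hψq p q hp hq hqp _ h1
      rwa [← mul_assoc, hψψ q hq] at h2

/-- **Main theorem.** For every abelian group `A` (of any rank, torsion, torsion-free or mixed):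
if the endomorphism ring of `A` is right distributive and centrally essential, then it is
commutative. -/
theorem result (A : Type u) [AddCommGroup A] (hdist : IsRightDistributive (AddMonoid.End A))
    (hess : IsCentrallyEssential (AddMonoid.End A)) (f g : AddMonoid.End A) : f * g = g * f := by
  classical
  by_contra hne
  obtain ⟨w, z, hw0, hw, hz, hw2, hwc⟩ :=
    exists_central_sq_zero hess f g (sub_ne_zero.2 hne)
  choose! ψ hψψ hψθ hψw hψt using fun (p : ℕ) (hp : p.Prime) =>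
    exists_psi hdist f g w z hw hz hw2 hwc hp
  obtain ⟨S, hwS, hSdiv⟩ := ring_part hdist w hw hw2 ψ hψψ
    (fun p hp θ hθ => hψθ p hp θ (fun a => DFunLike.congr_fun hθ a)) hψw
    (by
      intro p q hp hq hqp θ hθ
      ext a
      obtain ⟨k, hk⟩ := hψt q hq (θ a)
      have h1 : p • θ a = 0 := DFunLike.congr_fun hθ a
      have h2 : p • (ψ q (θ a)) = 0 := by rw [← map_nsmul, h1, map_zero]
      have hcop : IsCoprime ((q ^ k : ℕ) : ℤ) (p : ℤ) := by
        rw [Nat.isCoprime_iff_coprime]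
        exact Nat.Coprime.pow_left k ((Nat.coprime_primes hq hp).2 hqp)
      have h3 : ψ q (θ a) ∈ (⊥ : AddSubgroup A) :=
        mem_of_coprime p ((q ^ k : ℕ) : ℤ) hcop ⊥ _
          (by rw [natCast_zsmul, hk]; exact AddSubgroup.zero_mem _)
          (by rw [h2]; exact AddSubgroup.zero_mem _)
      exact h3)
  let V : AddSubgroup A := AddSubgroup.closure {v | ∃ s ∈ S, ∃ a, v = s a}
  have hVp : ∀ p : ℕ, p.Prime → ∀ d ∈ V, ∃ d' ∈ V, p • d' = d := by
    intro p hp d hd
    induction hd using AddSubgroup.closure_induction with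
    | mem x hx =>
      obtain ⟨s, hs, a, rfl⟩ := hx
      obtain ⟨s', hs', rfl⟩ := hSdiv s hs p hp
      exact ⟨s' a, AddSubgroup.subset_closure ⟨s', hs', a, rfl⟩, rfl⟩
    | zero => exact ⟨0, AddSubgroup.zero_mem _, by simp⟩
    | add x y _ _ hx hy =>
      obtain ⟨x', hx', rfl⟩ := hx
      obtain ⟨y', hy', rfl⟩ := hy
      exact ⟨x' + y', AddSubgroup.add_mem _ hx' hy', by rw [smul_add]⟩
    | neg x _ hx =>
      obtain ⟨x', hx', rfl⟩ := hx
      exact ⟨-x', AddSubgroup.neg_mem _ hx', by rw [smul_neg]⟩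
  have hV : ∀ n : ℕ, n ≠ 0 → ∀ d ∈ V, ∃ d' ∈ V, n • d' = d := by
    intro n
    induction n using Nat.strong_induction_on with
    | _ n ih =>
      intro hn d hd
      by_cases h1 : n = 1
      · exact ⟨d, hd, by rw [h1, one_smul]⟩
      · obtain ⟨p, hp, m, rfl⟩ := Nat.exists_prime_and_dvd h1
        have hm : m ≠ 0 := by rintro rfl; exact hn (mul_zero _)
        obtain ⟨d1, hd1, rfl⟩ := hVp p hp d hd
        obtain ⟨d2, hd2, rfl⟩ := ih m (by
            have := hp.two_le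
            nlinarith [Nat.pos_of_ne_zero hm]) hm d1 hd1
        exact ⟨d2, hd2, by rw [mul_smul]⟩
  apply hw0
  ext a
  exact central_disjoint_divisible w hw hw2 V hV a (AddSubgroup.subset_closure ⟨w, hwS, a, rfl⟩)

/-- The right uniserial case (question Q2): a chain of right ideals is a distributive lattice. -/
theorem uniserial_case (A : Type u) [AddCommGroup A]
    (huni : ∀ I J : Submodule (AddMonoid.End A)ᵐᵒᵖ (AddMonoid.End A), I ≤ J ∨ J ≤ I)
    (hess : IsCentrallyEssential (AddMonoid.End A)) (f g : AddMonoid.End A) : f * g = g * f := by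
  refine result A (fun I J K => ?_) hess f g
  rcases huni J K with h | h
  · rw [sup_eq_right.2 h, sup_eq_right.2 (inf_le_inf_left I h)]
  · rw [sup_eq_left.2 h, sup_eq_left.2 (inf_le_inf_left I h)]

end Pool.Agent.Results.MP_10193a_al.EndDistributive
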